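import Pool.Agent.H70.SL3

namespace Pool.Agent.Results.MP_20d9b9_al.Artinian

open Pool.Agent.H70.SL

universe u v

theorem result (A : Type u) [Ring A] (φ : RingAut A) :
    (∃ (R : Type u) (_ : Ring R) (e : R ≃+ HahnSeries ℤ A), IsSL φ e) ∧
    ∀ (R : Type v) [Ring R] (e : R ≃+ HahnSeries ℤ A), IsSL φ e → (∀ r : R, ∃ s, r = r * s * r) →
      IsSemisimpleRing R ∧ IsArtinianRing R ∧ IsArtinianRing Rᵐᵒᵖ :=
  ⟨exists_SL φ, fun _ _ _ h hR =>
    have := main3 h hR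
    ⟨this, inferInstance, inferInstance⟩⟩

end Pool.Agent.Results.MP_20d9b9_al.Artinian
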